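import Mathlib

namespace Pool.Agent.H.MP_325d65_an

open Filter Topology Complex MeasureTheory
open scoped InnerProductSpace ComplexConjugate

variable {H : Type*} [NormedAddCommGroup H] [InnerProductSpace ℂ H]

theorem pars (b : HilbertBasis ℕ ℂ H) (y : H) : HasSum (fun j => ‖⟪b j, y⟫_ℂ‖ ^ 2) (‖y‖ ^ 2) := by
  have := Complex.reCLM.hasSum (b.hasSum_inner_mul_inner y y)
  simp only [reCLM_apply, ← inner_conj_symm y (b _), conj_mul', inner_self_eq_norm_sq_to_K] at this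
  exact_mod_cast this

theorem hext (b : HilbertBasis ℕ ℂ H) {x y : H} (h : ∀ j, ⟪b j, x⟫_ℂ = ⟪b j, y⟫_ℂ) : x = y :=
  b.repr.injective (lp.ext (funext fun j => by simp only [b.repr_apply_apply, h]))

theorem diag (b : HilbertBasis ℕ ℂ H) (m : ℕ → ℂ) (K : ℝ) (h : ∀ j, ‖m j‖ ≤ K) :
    ∃ D : H →L[ℂ] H, ∀ j y, ⟪b j, D y⟫_ℂ = m j * ⟪b j, y⟫_ℂ := by
  have K0 := (norm_nonneg _).trans (h 0)
  have a : ∀ y j, ‖m j * ⟪b j, y⟫_ℂ‖ ^ 2 ≤ K ^ 2 * ‖⟪b j, y⟫_ℂ‖ ^ 2 := fun y j => by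
    rw [norm_mul, mul_pow]; gcongr; exact h j
  have e : ∀ y, ∃ z, ∀ j, ⟪b j, z⟫_ℂ = m j * ⟪b j, y⟫_ℂ := fun y =>
    ⟨b.repr.symm ⟨fun j => m j * ⟪b j, y⟫_ℂ, memℓp_gen (by
      simpa using ((pars b y).summable.mul_left _).of_nonneg_of_le (fun _ => by positivity) (a y))⟩,
      fun j => by rw [← b.repr_apply_apply, LinearIsometryEquiv.apply_symm_apply]⟩
  choose f hf using e
  refine ⟨LinearMap.mkContinuous ⟨⟨f, fun x y => hext b fun j => ?_⟩, fun c x => hext b fun j => ?_⟩ K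
    fun y => ?_, fun j y => hf y j⟩
  · simp only [hf, inner_add_right, mul_add]
  · simp only [hf, inner_smul_right, RingHom.id_apply]; ring
  · refine (pow_le_pow_iff_left₀ (norm_nonneg _) (by positivity) two_ne_zero).1 ?_
    rw [mul_pow]
    exact hasSum_le (fun j => (hf y j).symm ▸ a y j) (pars b (f y)) ((pars b y).mul_left _)

theorem semi (b : HilbertBasis ℕ ℂ H) (l : ℕ → ℂ) (h : ∀ j, -1 ≤ (l j).re) :
    ∃ S : ℝ → H →L[ℂ] H, (∀ y, Continuous fun t => S t y) ∧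
      ∀ t, 0 ≤ t → ∀ j y, ⟪b j, S t y⟫_ℂ = cexp (-l j * t) * ⟪b j, y⟫_ℂ := by
  have a : ∀ (t : ℝ) j, ‖cexp (-l j * (max t 0 : ℝ))‖ ≤ Real.exp (max t 0) := fun t j => by
    rw [norm_exp, re_mul_ofReal, neg_re, Real.exp_le_exp]
    nlinarith [h j, le_max_right t 0]
  choose S hS using fun t => diag b _ _ (a t)
  refine ⟨S, fun y => continuous_iff_continuousAt.2 fun s => ?_,
    fun t ht j y => by rw [hS, max_eq_left ht]⟩
  rw [ContinuousAt, tendsto_iff_norm_sub_tendsto_zero]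
  have := tendsto_tsum_of_dominated_convergence (𝓕 := 𝓝 s) (f := fun t j => ‖⟪b j, S t y - S s y⟫_ℂ‖ ^ 2)
    (g := fun _ => 0) ((pars b y).summable.mul_left ((2 * Real.exp (max (s + 1) 0)) ^ 2))
    (fun j => by
      simp only [inner_sub_right, hS]
      have : Continuous fun t : ℝ => ‖cexp (-l j * (max t 0 : ℝ)) * ⟪b j, y⟫_ℂ -
        cexp (-l j * (max s 0 : ℝ)) * ⟪b j, y⟫_ℂ‖ ^ 2 := by fun_prop
      simpa using this.tendsto s)
    ((gt_mem_nhds (lt_add_one s) : ∀ᶠ t in 𝓝 s, t < s + 1).mono fun t ht j => by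
      rw [inner_sub_right, hS, hS, ← sub_mul, norm_pow, norm_norm, norm_mul, mul_pow]
      gcongr
      linarith [norm_sub_le (cexp (-l j * (max t 0 : ℝ))) (cexp (-l j * (max s 0 : ℝ))), a t j, a s j,
        Real.exp_le_exp.2 (max_le_max_right 0 ht.le),
        Real.exp_le_exp.2 (max_le_max_right 0 (lt_add_one s).le)])
  simp only [(pars b _).tsum_eq, tsum_zero] at this
  simpa using this.sqrt

noncomputable def om : ℝ := 2 * Real.pi / Real.log 2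

noncomputable def lam : ℕ → ℂ
  | 0 => -1
  | 1 => -1 / 2
  | 2 => 1 / 2 + om * I
  | 3 => 1 + om * I
  | j + 4 => (j + 4 : ℕ)

theorem lam_re (j : ℕ) : (lam (j + 2)).re = if j = 0 then 1 / 2 else if j = 1 then 1 else (j + 2 : ℝ) := by
  rcases j with _ | _ | j
  · norm_num [lam]
  · norm_num [lam]
  · simp [lam]; ring

theorem lam_ge (j : ℕ) : 1 / 2 ≤ (lam (j + 2)).re := by
  rw [lam_re]; split_ifs <;> linarith [Nat.cast_nonneg (α := ℝ) j]

theorem ns (z : ℂ) (t : ℝ) (c : ℂ) : ‖cexp (-z * t) * c‖ ^ 2 = Real.exp (-2 * z.re * t) * ‖c‖ ^ 2 := by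
  rw [norm_mul, mul_pow, norm_exp, ← Real.exp_nat_mul, re_mul_ofReal, neg_re]
  congr 2; push_cast; ring

theorem l2 : 0 < Real.log 2 := Real.log_pos one_lt_two

theorem i1 : ∫ t in (0:ℝ)..Real.log 2, Real.exp t = 1 := by
  rw [integral_exp, Real.exp_log two_pos]; norm_num

theorem i2 : ∫ t in (0:ℝ)..Real.log 2, Real.exp (2 * t) = 3 / 2 := by
  rw [intervalIntegral.integral_comp_mul_left _ two_ne_zero, integral_exp, two_mul (Real.log 2),
    Real.exp_add, Real.exp_log two_pos]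
  norm_num

theorem i3 : ∫ t in (0:ℝ)..Real.log 2, Real.exp (Real.log 2 - t) = 1 := by
  rw [intervalIntegral.integral_comp_sub_left, sub_self, sub_zero, i1]

theorem i4 (c : ℂ) : ∫ t in (0:ℝ)..Real.log 2,
    (cexp (-(om * I) * t) * c).re = 0 := by
  have a : om ≠ 0 := (div_pos Real.two_pi_pos l2).ne'
  have a' : (om : ℂ) * (Real.log 2 : ℝ) = 2 * Real.pi := by
    exact_mod_cast div_mul_cancel₀ _ l2.ne'
  have := reCLM.intervalIntegral_comp_comm (μ := volume) (a := 0) (b := Real.log 2)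
    (f := fun t : ℝ => cexp (-(om * I) * t) * c)
    (Continuous.intervalIntegrable (by fun_prop) _ _)
  rw [intervalIntegral.integral_mul_const, integral_exp_mul_complex (by
    simp [a]), show -(om * I) * (Real.log 2 : ℝ) =
      -(2 * Real.pi * I) by linear_combination (-I) * a', exp_neg, exp_two_pi_mul_I] at this
  simpa using this

theorem low (b : HilbertBasis ℕ ℂ H) (S : ℝ → H →L[ℂ] H) (h1 : ∀ y, Continuous fun t => S t y)
    (h2 : ∀ t, 0 ≤ t → ∀ j y, ⟪b j, S t y⟫_ℂ = cexp (-lam j * t) * ⟪b j, y⟫_ℂ) (M : H →L[ℂ] H)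
    (m1 : ∀ u v, ⟪M u, v⟫_ℂ = ⟪u, M v⟫_ℂ) (m2 : M (b 0) = (4 / 7 : ℂ) • b 0 + (1 / 14 : ℂ) • b 3)
    (m3 : M (b 1) = (3 / 7 : ℂ) • b 1 + (1 / 14 : ℂ) • b 2)
    (m4 : ∀ z, 5 / 14 * ‖z‖ ^ 2 ≤ (⟪z, M z⟫_ℂ).re) (y : H) :
    3 / 14 * ‖S (Real.log 2) y‖ ^ 2 ≤ ∫ t in (0:ℝ)..Real.log 2, (⟪S t y, M (S t y)⟫_ℂ).re := by
  have o := orthonormal_iff_ite.1 b.orthonormal
  obtain ⟨R, hR⟩ : ∃ R, R = ∑' j, ‖⟪b (j + 2), S (Real.log 2) y⟫_ℂ‖ ^ 2 := ⟨_, rfl⟩
  have R0 : 0 ≤ R := hR ▸ tsum_nonneg fun _ => by positivity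
  have e1 : ‖S (Real.log 2) y‖ ^ 2 = 4 * ‖⟪b 0, y⟫_ℂ‖ ^ 2 + 2 * ‖⟪b 1, y⟫_ℂ‖ ^ 2 + R := by
    rw [← (pars b _).tsum_eq, ← (pars b _).summable.sum_add_tsum_nat_add 2, hR,
      Finset.sum_range_succ, Finset.sum_range_one, h2 _ l2.le, h2 _ l2.le, ns, ns]
    norm_num [lam, two_mul, add_mul, Real.exp_add, Real.exp_log]
  refine le_trans ?_ (intervalIntegral.integral_mono_on (f := fun t =>
    4 / 7 * ‖⟪b 0, y⟫_ℂ‖ ^ 2 * Real.exp (2 * t) + 3 / 7 * ‖⟪b 1, y⟫_ℂ‖ ^ 2 * Real.exp t +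
    5 / 14 * R * Real.exp (Real.log 2 - t) + (cexp (-(om * I) * t) *
      (1 / 7 * (conj ⟪b 0, y⟫_ℂ * ⟪b 3, y⟫_ℂ + conj ⟪b 1, y⟫_ℂ * ⟪b 2, y⟫_ℂ))).re) l2.le
    (Continuous.intervalIntegrable (by fun_prop) _ _) (Continuous.intervalIntegrable
      (continuous_re.comp ((h1 y).inner (M.continuous.comp (h1 y)))) _ _) fun t ht => ?_)
  · rw [intervalIntegral.integral_add, intervalIntegral.integral_add, intervalIntegral.integral_add,
      intervalIntegral.integral_const_mul, intervalIntegral.integral_const_mul,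
      intervalIntegral.integral_const_mul, i1, i2, i3, i4, e1]
    · linarith
    all_goals exact Continuous.intervalIntegrable (by fun_prop) _ _
  obtain ⟨u, hu⟩ : ∃ u : ℕ → ℂ, ∀ j, u j = ⟪b j, S t y⟫_ℂ := ⟨_, fun _ => rfl⟩
  obtain ⟨z, hz⟩ : ∃ z, S t y = u 0 • b 0 + u 1 • b 1 + z := ⟨_, (add_sub_cancel _ _).symm⟩
  have z0 : ⟪b 0, z⟫_ℂ = 0 := by simpa [hz, inner_add_right, inner_smul_right, o, b.orthonormal.1 _] using hu 0
  have z1 : ⟪b 1, z⟫_ℂ = 0 := by simpa [hz, inner_add_right, inner_smul_right, o, b.orthonormal.1 _] using hu 1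
  have z2 : ∀ j, ⟪b (j + 2), z⟫_ℂ = u (j + 2) := fun j => by
    simpa [hz, inner_add_right, inner_smul_right, o] using (hu (j + 2)).symm
  have e2 : R * Real.exp (Real.log 2 - t) ≤ ‖z‖ ^ 2 := by
    rw [← (pars b z).tsum_eq, ← (pars b z).summable.sum_add_tsum_nat_add 2, hR, ← tsum_mul_right,
      Finset.sum_range_succ, Finset.sum_range_one, z0, z1]
    simp only [norm_zero, ne_eq, OfNat.ofNat_ne_zero, not_false_eq_true, zero_pow, zero_add]
    refine (((summable_nat_add_iff 2).2 (pars b _).summable).mul_right _).tsum_le_tsum (fun j => ?_)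
      ((summable_nat_add_iff 2).2 (pars b z).summable)
    rw [z2, hu, h2 _ l2.le, h2 _ ht.1, ns, ns, mul_right_comm, ← Real.exp_add]
    gcongr
    nlinarith [lam_ge j, ht.2]
  have e3 : ⟪S t y, M (S t y)⟫_ℂ = 4 / 7 * (conj (u 0) * u 0) + 3 / 7 * (conj (u 1) * u 1) +
      1 / 14 * (conj (u 0) * u 3 + conj (u 1) * u 2) +
      conj (1 / 14 * (conj (u 0) * u 3 + conj (u 1) * u 2)) + ⟪z, M z⟫_ℂ := by
    rw [hz]
    simp only [map_add, map_smul, inner_add_left, inner_add_right, inner_smul_left, inner_smul_right,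
      ← m1 (b _) z, m2, m3, o, ← inner_conj_symm z (b _), z0, z1, z2 0, z2 1, map_mul, conj_conj,
      map_div₀, map_one, map_ofNat]
    simp
    ring
  have e4 : conj (u 0) * u 3 + conj (u 1) * u 2 = cexp (-(om * I) * t) *
      (conj ⟪b 0, y⟫_ℂ * ⟪b 3, y⟫_ℂ + conj ⟪b 1, y⟫_ℂ * ⟪b 2, y⟫_ℂ) := by
    have : ∀ r : ℝ, conj (cexp (-(-r : ℝ) * t)) * cexp (-(r + om * I) * t) =
        cexp (-(om * I) * t) := fun r => by
      rw [← exp_conj, ← exp_add]; congr 1; simp; ring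
    have a := this 1
    have c := this (1 / 2)
    simp only [hu, h2 _ ht.1, lam, map_mul]
    push_cast at a c ⊢
    rw [neg_div]
    linear_combination (conj ⟪b 0, y⟫_ℂ * ⟪b 3, y⟫_ℂ) * a + (conj ⟪b 1, y⟫_ℂ * ⟪b 2, y⟫_ℂ) * c
  have e5 : ‖u 0‖ ^ 2 = Real.exp (2 * t) * ‖⟪b 0, y⟫_ℂ‖ ^ 2 := by
    rw [hu, h2 _ ht.1, ns]; norm_num [lam]
  have e6 : ‖u 1‖ ^ 2 = Real.exp t * ‖⟪b 1, y⟫_ℂ‖ ^ 2 := by
    rw [hu, h2 _ ht.1, ns]; norm_num [lam]
  rw [e3, conj_mul', conj_mul', mul_left_comm (cexp _), ← e4]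
  generalize conj (u 0) * u 3 + conj (u 1) * u 2 = w
  simp only [add_re, conj_re, ← ofReal_pow, e5, e6]
  have := m4 z
  norm_num [-ofReal_exp, -ofReal_pow, -ofReal_mul]
  linarith

end Pool.Agent.H.MP_325d65_an
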