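import Pool.Agent.H.MP_325d65_an.A

namespace Pool.Agent.H.MP_325d65_an

open Filter Topology Complex MeasureTheory Set
open scoped InnerProductSpace ComplexConjugate BoundedContinuousFunction ENNReal

noncomputable def ex (k : ℤ) : ℝ →ᵇ ℂ :=
  BoundedContinuousFunction.ofNormedAddCommGroup (fun x : ℝ => cexp ((2 * Real.pi * k * x : ℝ) * I))
    (by fun_prop) 1 fun _ => (norm_exp_ofReal_mul_I _).le

theorem ex_ap (k : ℤ) (x : ℝ) : ex k x = cexp (2 * Real.pi * I * k * x) := by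
  show cexp _ = _
  congr 1; push_cast; ring

theorem ex_mul (k l : ℤ) : ex k * ex l = ex (k + l) := BoundedContinuousFunction.ext fun x => by
  rw [BoundedContinuousFunction.mul_apply, ex_ap, ex_ap, ex_ap, ← exp_add]
  congr 1; push_cast; ring

theorem ex_zero : ex 0 = 1 := BoundedContinuousFunction.ext fun x => by simp [ex_ap]

theorem ex_conj (k : ℤ) (x : ℝ) : conj (ex k x) = ex (-k) x := by
  rw [ex_ap, ex_ap, ← exp_conj]; congr 1; simp [conj_ofNat]

theorem ex_int (k : ℤ) : ∫ x in Ioo (0:ℝ) 1, ex k x = if k = 0 then 1 else 0 := by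
  rw [← integral_Ioc_eq_integral_Ioo, ← intervalIntegral.integral_of_le zero_le_one]
  split_ifs with h
  · simp [h, ex_zero]
  · simp only [ex_ap]
    rw [integral_exp_mul_complex (by simp [h])]
    simp [mul_comm _ (k:ℂ), exp_int_mul_two_pi_mul_I]

noncomputable abbrev tl : (ℝ →ᵇ ℂ) →L[ℂ] Lp ℂ 2 (volume.restrict (Ioo (0:ℝ) 1)) :=
  BoundedContinuousFunction.toLp 2 _ ℂ

theorem tl_ae (f : ℝ →ᵇ ℂ) : tl f =ᵐ[volume.restrict (Ioo (0:ℝ) 1)] f :=
  BoundedContinuousFunction.coeFn_toLp _ _ _ f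

theorem in_ex (k : ℤ) (u : Lp ℂ 2 (volume.restrict (Ioo (0:ℝ) 1))) :
    ⟪tl (ex k), u⟫_ℂ = ∫ x in Ioo (0:ℝ) 1, ex (-k) x * u x := by
  rw [L2.inner_def]
  exact integral_congr_ae ((tl_ae (ex k)).mono fun x h => by
    simp only [h, RCLike.inner_apply, ex_conj, mul_comm])

theorem ex_on (k l : ℤ) : ⟪tl (ex k), tl (ex l)⟫_ℂ = if k = l then 1 else 0 := by
  rw [in_ex, integral_congr_ae ((tl_ae (ex l)).mono fun x h => by
    rw [h, ← BoundedContinuousFunction.mul_apply, ex_mul]), ex_int]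
  simp only [neg_add_eq_zero]

theorem sq_int (u : Lp ℂ 2 (volume.restrict (Ioo (0:ℝ) 1))) :
    ∫ x in Ioo (0:ℝ) 1, ‖u x‖ ^ 2 = ‖u‖ ^ 2 := by
  have := L2.inner_def (𝕜 := ℂ) u u
  simp only [inner_self_eq_norm_sq_to_K] at this
  exact_mod_cast this.symm

theorem ex_compl (u : Lp ℂ 2 (volume.restrict (Ioo (0:ℝ) 1))) (h : ∀ k, ⟪tl (ex k), u⟫_ℂ = 0) :
    u = 0 := by
  have := tsum_sq_fourierCoeffOn (f := u) zero_lt_one
    (by rw [← restrict_Ioo_eq_restrict_Ioc]; exact Lp.memLp u)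
  rw [intervalIntegral.integral_of_le zero_le_one, integral_Ioc_eq_integral_Ioo, sq_int,
    tsum_congr (g := fun _ => 0) fun k => by
      rw [fourierCoeffOn_eq_integral, intervalIntegral.integral_of_le zero_le_one,
        integral_Ioc_eq_integral_Ioo, integral_congr_ae (g := fun x => ex (-k) x * u x)
          (Eventually.of_forall fun x => by simp only [ex_ap, fourier_coe_apply]; simp), ← in_ex, h]
      simp] at this
  simpa using this.symm

def kk (j : ℕ) : ℤ := if j % 2 = 0 then -(j / 2 : ℕ) else (j + 1) / 2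

noncomputable def rr : ℂ := (√2 : ℝ)⁻¹

theorem rr_sq : rr * rr = 1 / 2 := by
  rw [rr, ← mul_inv, ← ofReal_mul, Real.mul_self_sqrt zero_le_two]; simp

theorem rr_conj : conj rr = rr := by simp [rr]

noncomputable def gg : ℕ → ℝ →ᵇ ℂ
  | 0 => rr • (ex 0 + ex 1)
  | 1 => rr • (ex 0 - ex 1)
  | 2 => rr • (ex (-1) - ex 2)
  | 3 => rr • (ex (-1) + ex 2)
  | j + 4 => ex (kk (j + 4))

theorem gg_an (j : ℕ) : AnalyticOnNhd ℝ (gg j) univ := by
  have : ∀ k x, AnalyticAt ℝ (ex k) x := fun k x => by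
    rw [show ⇑(ex k) = _ from funext (ex_ap k)]
    exact (analyticAt_cexp.restrictScalars (𝕜 := ℝ)).comp
      (analyticAt_const.mul (ofRealCLM.analyticAt x))
  rcases j with _ | _ | _ | _ | j <;> intro x _
  exacts [((this _ x).add (this _ x)).const_smul (c := rr), ((this _ x).sub (this _ x)).const_smul (c := rr),
    ((this _ x).sub (this _ x)).const_smul (c := rr), ((this _ x).add (this _ x)).const_smul (c := rr),
    this _ x]

theorem gg_on : Orthonormal ℂ fun j => tl (gg j) := by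
  have a : ∀ j, kk (j + 4) ≠ 0 ∧ kk (j + 4) ≠ 1 ∧ kk (j + 4) ≠ -1 ∧ kk (j + 4) ≠ 2 := fun j => by
    unfold kk; split_ifs <;> omega
  have c : ∀ i j, kk (i + 4) = kk (j + 4) ↔ i = j := fun i j => by unfold kk; split_ifs <;> omega
  refine orthonormal_iff_ite.2 fun i j => ?_
  rcases i with _ | _ | _ | _ | i <;> rcases j with _ | _ | _ | _ | j <;>
    simp only [gg, map_smul, map_add, map_sub, inner_smul_left, inner_smul_right, inner_add_left,
      inner_add_right, inner_sub_left, inner_sub_right, ex_on, rr_conj, c] <;>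
    simp [a, fun j => (a j).1.symm, fun j => (a j).2.1.symm, fun j => (a j).2.2.1.symm,
      fun j => (a j).2.2.2.symm]
  all_goals linear_combination 2 * rr_sq

theorem basis : ∃ b : HilbertBasis ℕ ℂ (Lp ℂ 2 (volume.restrict (Ioo (0:ℝ) 1))),
    ∀ j, b j = tl (gg j) := by
  refine ⟨HilbertBasis.mkOfOrthogonalEqBot gg_on ((Submodule.eq_bot_iff _).2 fun u hu =>
    ex_compl u fun k => ?_), fun j => by simp⟩
  have h : ∀ j, ⟪tl (gg j), u⟫_ℂ = 0 := fun j =>
    Submodule.inner_right_of_mem_orthogonal (Submodule.subset_span (mem_range_self j)) hu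
  have h0 := h 0
  have h1 := h 1
  have h2 := h 2
  have h3 := h 3
  simp only [gg, map_smul, map_add, map_sub, inner_smul_left, inner_add_left, inner_sub_left,
    rr_conj] at h0 h1 h2 h3
  by_cases a : k = 0
  · subst a; linear_combination rr * h0 + rr * h1 - 2 * ⟪tl (ex 0), u⟫_ℂ * rr_sq
  by_cases b : k = 1
  · subst b; linear_combination rr * h0 - rr * h1 - 2 * ⟪tl (ex 1), u⟫_ℂ * rr_sq
  by_cases c : k = -1
  · subst c; linear_combination rr * h2 + rr * h3 - 2 * ⟪tl (ex (-1)), u⟫_ℂ * rr_sq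
  by_cases d : k = 2
  · subst d; linear_combination rr * h3 - rr * h2 - 2 * ⟪tl (ex 2), u⟫_ℂ * rr_sq
  obtain ⟨j, rfl⟩ : ∃ j, kk (j + 4) = k := by
    rcases le_total k 0 with e | e
    · exact ⟨2 * (-k).toNat - 4, by unfold kk; split_ifs <;> omega⟩
    · exact ⟨2 * k.toNat - 5, by unfold kk; split_ifs <;> omega⟩
  exact h (j + 4)

noncomputable def aa (x : ℝ) : ℝ := 1 / 2 + Real.cos (2 * Real.pi * x) / 7

noncomputable def aB : ℝ →ᵇ ℂ := (1 / 2 : ℂ) • ex 0 + (1 / 14 : ℂ) • (ex 1 + ex (-1))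

theorem aB_ap (x : ℝ) : aB x = aa x := by
  simp [aB, aa, ex_ap, Complex.cos]
  ring_nf

theorem aa_bd (x : ℝ) : 5 / 14 ≤ aa x ∧ aa x < 1 := by
  unfold aa
  constructor <;> linarith [Real.neg_one_le_cos (2 * Real.pi * x), Real.cos_le_one (2 * Real.pi * x)]

theorem mult : ∃ M : Lp ℂ 2 (volume.restrict (Ioo (0:ℝ) 1)) →L[ℂ] Lp ℂ 2 (volume.restrict (Ioo (0:ℝ) 1)),
    (∀ u v, ⟪M u, v⟫_ℂ = ⟪u, M v⟫_ℂ) ∧
    M (tl (gg 0)) = (4 / 7 : ℂ) • tl (gg 0) + (1 / 14 : ℂ) • tl (gg 3) ∧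
    M (tl (gg 1)) = (3 / 7 : ℂ) • tl (gg 1) + (1 / 14 : ℂ) • tl (gg 2) ∧
    (∀ z, 5 / 14 * ‖z‖ ^ 2 ≤ (⟪z, M z⟫_ℂ).re) ∧
    ∀ z, (⟪z, M z⟫_ℂ).re = ∫ x in Ioo (0:ℝ) 1, aa x * ‖z x‖ ^ 2 := by
  obtain ⟨M, hM⟩ : ∃ M : Lp ℂ 2 (volume.restrict (Ioo (0:ℝ) 1)) →L[ℂ]
      Lp ℂ 2 (volume.restrict (Ioo (0:ℝ) 1)), ∀ u, M u =ᵐ[volume.restrict (Ioo (0:ℝ) 1)]
      fun x => aB x * u x :=
    ⟨(ContinuousLinearMap.mul ℂ ℂ).holderL _ ∞ 2 2 (BoundedContinuousFunction.toLp ∞ _ ℂ aB),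
      fun u => by
        filter_upwards [(ContinuousLinearMap.mul ℂ ℂ).coeFn_holder (r := 2)
          (BoundedContinuousFunction.toLp ∞ _ ℂ aB) u,
          BoundedContinuousFunction.coeFn_toLp ∞ (volume.restrict (Ioo (0:ℝ) 1)) ℂ aB] with x a b
        rw [← b]; exact a⟩
  have h1 : ∀ f, M (tl f) = tl (aB * f) := fun f => Lp.ext (by
    filter_upwards [hM (tl f), tl_ae f, tl_ae (aB * f)] with x a b c
    rw [a, b, c]; rfl)
  have h2 : ∀ z, (⟪z, M z⟫_ℂ).re = ∫ x in Ioo (0:ℝ) 1, aa x * ‖z x‖ ^ 2 := fun z => by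
    rw [L2.inner_def, integral_congr_ae (g := fun x => ((aa x * ‖z x‖ ^ 2 : ℝ) : ℂ))
      ((hM z).mono fun x h => by
        simp only [h, RCLike.inner_apply, aB_ap, mul_assoc, mul_conj']; push_cast; rfl),
      integral_complex_ofReal, ofReal_re]
  refine ⟨M, fun u v => ?_, ?_, ?_, fun z => ?_, h2⟩
  · rw [L2.inner_def, L2.inner_def]
    refine integral_congr_ae ?_
    filter_upwards [hM u, hM v] with x a b
    simp only [a, b, RCLike.inner_apply, aB_ap, map_mul, conj_ofReal]; ring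
  · rw [h1, ← map_smul, ← map_smul, ← map_add]
    congr 1
    simp only [aB, gg, add_mul, mul_add, smul_mul_assoc, mul_smul_comm, ex_mul]
    norm_num; module
  · rw [h1, ← map_smul, ← map_smul, ← map_add]
    congr 1
    simp only [aB, gg, add_mul, mul_sub, smul_mul_assoc, mul_smul_comm, ex_mul]
    norm_num; module
  · have i : Integrable (fun x => ‖z x‖ ^ 2) (volume.restrict (Ioo (0:ℝ) 1)) :=
      (memLp_two_iff_integrable_sq_norm (Lp.aestronglyMeasurable z)).1 (Lp.memLp z)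
    rw [h2, ← sq_int, ← integral_const_mul]
    refine integral_mono (i.const_mul _) (i.bdd_mul (c := 1) (Continuous.aestronglyMeasurable
      (by unfold aa; fun_prop)) (Eventually.of_forall fun x => ?_)) fun x =>
      mul_le_mul_of_nonneg_right (aa_bd x).1 (by positivity)
    rw [Real.norm_of_nonneg (by linarith [(aa_bd x).1])]; exact (aa_bd x).2.le

theorem g0 (x : ℝ) : ‖gg 0 x‖ ^ 2 = 1 + Real.cos (2 * Real.pi * x) ∧
    ‖gg 1 x‖ ^ 2 = 1 - Real.cos (2 * Real.pi * x) := by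
  have a : ex 1 x * ex (-1) x = 1 := by rw [← BoundedContinuousFunction.mul_apply, ex_mul]; simp [ex_zero]
  have b : ex 1 x + ex (-1) x = 2 * Real.cos (2 * Real.pi * x) := by
    simp [ex_ap, Complex.cos]; ring_nf
  constructor <;> refine ofReal_injective ?_ <;> rw [ofReal_pow, ← mul_conj'] <;>
    simp [gg, ex_zero, rr_conj, ex_conj, -ofReal_cos]
  · linear_combination (2 + 2 * (Real.cos (2 * Real.pi * x) : ℂ)) * rr_sq + rr * rr * a + rr * rr * b
  · linear_combination (2 - 2 * (Real.cos (2 * Real.pi * x) : ℂ)) * rr_sq + rr * rr * a - rr * rr * b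

end Pool.Agent.H.MP_325d65_an
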